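import Pool.Agent.Helper68.DS.Goals

set_option autoImplicit false

/-!
# STEPGEN (MP_52cd29_ag): existence of the matrices of the step on a plane
-/

namespace Pool.Agent.Helper20.DS

open MvPolynomial Pool.Agent.Helper68.DS

/-! ### Homogeneity -/

theorem det_homog {n k : ℕ} (M : Matrix (Fin k) (Fin k) (MvPolynomial (Fin n) ℂ)) (hM : IsLin M) :
    M.det.IsHomogeneous k := by
  rw [Matrix.det_apply]
  refine IsHomogeneous.sum _ _ _ fun σ _ => ?_
  have h : (∏ i, M (σ i) i).IsHomogeneous k := by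
    have h := IsHomogeneous.prod (Finset.univ : Finset (Fin k)) (fun i => M (σ i) i) (fun _ => 1)
      (fun i _ => hM _ _)
    simpa using h
  rcases Int.units_eq_one_or (Equiv.Perm.sign σ) with hs | hs
  · rw [hs, one_smul]; exact h
  · rw [hs, Units.neg_smul, one_smul]; exact h.neg

theorem adj_homog {n k : ℕ} (M : Matrix (Fin (k + 1)) (Fin (k + 1)) (MvPolynomial (Fin n) ℂ))
    (hM : IsLin M) (a b : Fin (k + 1)) : (M.adjugate a b).IsHomogeneous k := by
  rw [Matrix.adjugate_fin_succ_eq_det_submatrix]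
  have h : (M.submatrix b.succAbove a.succAbove).det.IsHomogeneous k :=
    det_homog _ fun i j => hM _ _
  rcases neg_one_pow_eq_or (MvPolynomial (Fin n) ℂ) ((b : ℕ) + (a : ℕ)) with hs | hs
  · rw [hs, one_mul]; exact h
  · rw [hs, neg_mul, one_mul]; exact h.neg

/-- A variable times an entry of the adjugate of a matrix of size `k` has degree `k`. -/
theorem X_adj_homog {n : ℕ} {k : ℕ} (M : Matrix (Fin k) (Fin k) (MvPolynomial (Fin n) ℂ))
    (hM : IsLin M) (j : Fin n) (a b : Fin k) : (X j * M.adjugate a b).IsHomogeneous k := by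
  cases k with
  | zero => exact a.elim0
  | succ k =>
    have h := (isHomogeneous_X ℂ j).mul (adj_homog M hM a b)
    convert h using 1
    exact add_comm k 1

theorem lf_homog {n : ℕ} (c : Fin n → ℂ) : (lf c).IsHomogeneous 1 := by
  unfold lf
  refine IsHomogeneous.sum _ _ _ fun j _ => ?_
  have h := (isHomogeneous_C (Fin n) (c j)).mul (isHomogeneous_X ℂ j)
  simpa using h

theorem lf_add {n : ℕ} (c d : Fin n → ℂ) : lf (c + d) = lf c + lf d := by
  simp only [lf, Pi.add_apply, map_add, add_mul, Finset.sum_add_distrib]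

theorem lf_smul {n : ℕ} (t : ℂ) (d : Fin n → ℂ) : lf (t • d) = t • lf d := by
  simp only [lf, Pi.smul_apply, smul_eq_mul, map_mul, Algebra.smul_def, algebraMap_eq,
      Finset.mul_sum, mul_assoc]

theorem lf_zero {n : ℕ} : lf (0 : Fin n → ℂ) = 0 := by
  simp [lf]

theorem lf_coeff {n : ℕ} (F : MvPolynomial (Fin n) ℂ) (hF : F.IsHomogeneous 1) :
    F = lf fun j => coeff (Finsupp.single j 1) F := by
  classical
  ext d
  by_cases hd : d.degree = 1
  · obtain ⟨j, rfl⟩ : ∃ j, d = Finsupp.single j 1 := by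
      have h1 : d ≠ 0 := by
        rintro rfl
        simp at hd
      obtain ⟨j, hj⟩ := Finsupp.ne_iff.1 h1
      refine ⟨j, ?_⟩
      rw [Finsupp.zero_apply] at hj
      have h2 : Finsupp.single j 1 ≤ d := by
        rw [Finsupp.single_le_iff]
        exact Nat.one_le_iff_ne_zero.2 hj
      obtain ⟨e, he⟩ := le_iff_exists_add.1 h2
      have h3 : e.degree = 0 := by
        rw [he, map_add] at hd
        simpa using hd
      rw [Finsupp.degree_eq_zero_iff] at h3
      rw [he, h3, add_zero]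
    rw [lf, coeff_sum, Finset.sum_eq_single j]
    · rw [coeff_C_mul, coeff_X, if_pos rfl, mul_one]
    · intro i _ hi
      rw [coeff_C_mul, coeff_X, if_neg, mul_zero]
      intro h
      exact hi (Finsupp.single_left_injective one_ne_zero h)
    · intro h
      exact absurd (Finset.mem_univ j) h
  · rw [hF.coeff_eq_zero hd, (lf_homog _).coeff_eq_zero hd]

/-! ### The spaces have the right degree -/

theorem TT_le {k : ℕ} (M : Matrix (Fin k) (Fin k) (MvPolynomial (Fin 4) ℂ)) (hM : IsLin M) :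
    TT M ≤ HS 4 k := by
  refine Submodule.span_le.2 ?_
  rintro _ ⟨p, rfl⟩
  exact X_adj_homog M hM _ _ _

theorem tauM_le {m : ℕ} (M : Matrix (Fin (m + 1)) (Fin (m + 1)) (MvPolynomial (Fin 3) ℂ))
    (hM : IsLin M) : tauM M ≤ HS 3 (m + 1) := by
  refine sup_le (Submodule.span_le.2 ?_) (Submodule.span_le.2 ?_)
  · rintro _ ⟨p, rfl⟩
    exact X_adj_homog M hM _ _ _
  · rintro _ ⟨p, rfl⟩
    exact X_adj_homog M hM _ _ _

/-! ### Step (i): matrices in the plane -/

theorem stepi (h3 : DIM_stmt) (h5 : LEMA_stmt) (m : ℕ) (hm : 1 ≤ m)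
    (E' : Submodule ℂ (MvPolynomial (Fin 3) ℂ)) (hE' : E' ≤ HS 3 (m + 1)) (r : ℕ) :
    ∃ N : Fin r → Matrix (Fin (m + 1)) (Fin (m + 1)) (MvPolynomial (Fin 3) ℂ),
      (∀ i, IsLin (N i)) ∧
      min ((m + 3).choose 2) (Module.finrank ℂ ↥E' + r * (4 * m + 2)) ≤
        Module.finrank ℂ ↥(E' ⊔ ⨆ i, tauM (N i)) := by
  have : FiniteDimensional ℂ ↥(HS 3 (m + 1)) := (h3 2 (m + 1)).1
  induction r with
  | zero =>
    refine ⟨fun i => i.elim0, fun i => i.elim0, ?_⟩
    rw [iSup_of_empty, sup_bot_eq, zero_mul, add_zero]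
    exact min_le_right _ _
  | succ r ih =>
    obtain ⟨N, hN, hr⟩ := ih
    have hle : E' ⊔ ⨆ i, tauM (N i) ≤ HS 3 (m + 1) :=
      sup_le hE' (iSup_le fun i => tauM_le _ (hN i))
    obtain ⟨M, hM, hMr⟩ := h5 m hm (E' ⊔ ⨆ i, tauM (N i)) hle
    refine ⟨Fin.snoc (α := fun _ => Matrix (Fin (m + 1)) (Fin (m + 1)) (MvPolynomial (Fin 3) ℂ))
      N M, ?_, ?_⟩
    · intro i
      refine Fin.lastCases ?_ (fun j => ?_) i
      · rw [Fin.snoc_last]; exact hM
      · rw [Fin.snoc_castSucc]; exact hN j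
    · have hle2 : (E' ⊔ ⨆ i, tauM (N i)) ⊔ tauM M ≤ E' ⊔ ⨆ i, tauM (Fin.snoc
          (α := fun _ => Matrix (Fin (m + 1)) (Fin (m + 1)) (MvPolynomial (Fin 3) ℂ)) N M i) := by
        refine sup_le (sup_le le_sup_left (iSup_le fun i => ?_)) ?_
        · refine le_sup_of_le_right ?_
          refine le_trans ?_ (le_iSup _ i.castSucc)
          rw [Fin.snoc_castSucc]
        · refine le_sup_of_le_right ?_
          refine le_trans ?_ (le_iSup _ (Fin.last r))
          rw [Fin.snoc_last]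
      have hle3 : E' ⊔ ⨆ i, tauM (Fin.snoc
          (α := fun _ => Matrix (Fin (m + 1)) (Fin (m + 1)) (MvPolynomial (Fin 3) ℂ)) N M i) ≤
          HS 3 (m + 1) := by
        refine sup_le hE' (iSup_le fun i => tauM_le _ ?_)
        refine Fin.lastCases ?_ (fun j => ?_) i
        · rw [Fin.snoc_last]; exact hM
        · rw [Fin.snoc_castSucc]; exact hN j
      have := Submodule.finiteDimensional_of_le hle3
      have h := Submodule.finrank_mono hle2
      have h' : (r + 1) * (4 * m + 2) = r * (4 * m + 2) + (4 * m + 2) := by ring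
      rw [h']
      omega

theorem stepi' (h3 : DIM_stmt) (h5 : LEMA_stmt) (m s : ℕ) (hm : 1 ≤ m)
    (E' : Submodule ℂ (MvPolynomial (Fin 3) ℂ)) (hE' : E' ≤ HS 3 (m + 1))
    (hdim : (m + 3).choose 2 ≤ s * (4 * m + 2) + Module.finrank ℂ ↥E') :
    ∃ N : Fin s → Matrix (Fin (m + 1)) (Fin (m + 1)) (MvPolynomial (Fin 3) ℂ),
      (∀ i, IsLin (N i)) ∧ HS 3 (m + 1) ≤ (⨆ i, tauM (N i)) ⊔ E' := by
  have : FiniteDimensional ℂ ↥(HS 3 (m + 1)) := (h3 2 (m + 1)).1
  obtain ⟨N, hN, h⟩ := stepi h3 h5 m hm E' hE' s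
  refine ⟨N, hN, ?_⟩
  have hle : E' ⊔ ⨆ i, tauM (N i) ≤ HS 3 (m + 1) :=
    sup_le hE' (iSup_le fun i => tauM_le _ (hN i))
  have hd : Module.finrank ℂ ↥(HS 3 (m + 1)) = (m + 3).choose 2 := by
    have h := (h3 2 (m + 1)).2
    rw [show 2 + (m + 1) = m + 3 by omega] at h
    exact h
  have heq := Submodule.eq_of_le_of_finrank_le hle (by omega)
  rw [sup_comm, heq]

/-! ### Step (ii): genericity -/

/-- The matrices with coefficients `c`. -/
noncomputable def Mt {n s m : ℕ} (c : Fin s → Fin (m + 1) → Fin (m + 1) → Fin n → ℂ) (i : Fin s) :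
    Matrix (Fin (m + 1)) (Fin (m + 1)) (MvPolynomial (Fin n) ℂ) :=
  Matrix.of fun a b => lf (c i a b)

theorem Mt_lin {n s m : ℕ} (c : Fin s → Fin (m + 1) → Fin (m + 1) → Fin n → ℂ) (i : Fin s) :
    IsLin (Mt c i) := fun _ _ => lf_homog _

theorem Mt_poly (h1 : PM_stmt) {n s m : ℕ} (p q : Fin s → Fin (m + 1) → Fin (m + 1) → Fin n → ℂ)
    (i : Fin s) (a b : Fin (m + 1)) : IsPolyMap fun t : ℂ => Mt (p + t • q) i a b := by
  have h : (fun t : ℂ => Mt (p + t • q) i a b) = fun t => lf (p i a b) + t • lf (q i a b) := by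
    funext t
    simp only [Mt, Matrix.of_apply, Pi.add_apply, Pi.smul_apply]
    rw [← lf_smul, ← lf_add]
  rw [h]
  exact h1.line _ _ _

theorem iSup_span_prod {V ι κ : Type} [AddCommGroup V] [Module ℂ V] (f : ι → κ → V) :
    ⨆ i, Submodule.span ℂ (Set.range (f i)) =
      Submodule.span ℂ (Set.range fun p : ι × κ => f p.1 p.2) := by
  rw [← Submodule.span_iUnion]
  congr 1
  ext x
  simp only [Set.mem_iUnion, Set.mem_range, Prod.exists]

theorem STEPGEN (h1 : PM_stmt) (h2 : LO_stmt) (h3 : DIM_stmt) (h4 : KPR_stmt) (h5 : LEMA_stmt) :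
    STEPGEN_stmt := by
  intro m s hm μ E hE hG hdim
  obtain ⟨G', hG', hG's⟩ := hG
  have fd3 : FiniteDimensional ℂ ↥(HS 3 (m + 1)) := (h3 2 (m + 1)).1
  have fd4 : FiniteDimensional ℂ ↥(HS 4 m) := (h3 3 m).1
  set E' : Submodule ℂ (MvPolynomial (Fin 3) ℂ) := E.map (pr μ).toLinearMap with hE'def
  have hE' : E' ≤ HS 3 (m + 1) := by
    rintro _ ⟨F, hF, rfl⟩
    exact (h4 μ (m + 1)).2.2.1 F (hE hF)
  have fdE' : FiniteDimensional ℂ ↥E' := Submodule.finiteDimensional_of_le hE'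
  have hcol : colon E m μ ≤ HS 4 m := inf_le_right
  have fdc : FiniteDimensional ℂ ↥(colon E m μ) := Submodule.finiteDimensional_of_le hcol
  obtain ⟨N, hN, hNs⟩ := stepi' h3 h5 m s hm E' hE' hdim
  -- the first open set
  let P : Type := Fin s → Fin (m + 1) → Fin (m + 1) → Fin 4 → ℂ
  let F1 : Fin s × (Fin 4 × Fin m × Fin m) → P → MvPolynomial (Fin 4) ℂ := fun a p =>
    X a.2.1 * ((Mt p a.1).submatrix Fin.succ Fin.succ).adjugate a.2.2.1 a.2.2.2
  have hF1 : ∀ p : P, (⨆ i, TT ((Mt p i).submatrix Fin.succ Fin.succ)) =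
      Submodule.span ℂ (Set.range fun a => F1 a p) := by
    intro p
    exact iSup_span_prod (fun (i : Fin s) (x : Fin 4 × Fin m × Fin m) =>
      X x.1 * ((Mt p i).submatrix Fin.succ Fin.succ).adjugate x.2.1 x.2.2)
  have hU1 := h2.rank P (MvPolynomial (Fin 4) ℂ) (colon E m μ)
    (Fin s × (Fin 4 × Fin m × Fin m)) F1
    (by
      intro a p q
      refine h1.mul _ _ _ (h1.const _ _) ?_
      refine h1.adj _ _ _ ?_ _ _
      intro x y
      exact Mt_poly h1 p q a.1 x.succ y.succ)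
    (Module.finrank ℂ ↥(HS 4 m))
  have hU1ne : {p : P | Module.finrank ℂ ↥(HS 4 m) ≤ Module.finrank ℂ
      ↥(colon E m μ ⊔ Submodule.span ℂ (Set.range fun a => F1 a p))}.Nonempty := by
    let p : P := fun i a b => Fin.cases (fun _ => 0) (fun a' => Fin.cases (fun _ => 0)
      (fun b' j => coeff (Finsupp.single j 1) (G' i a' b')) b) a
    refine ⟨p, ?_⟩
    have hp : ∀ i, (Mt p i).submatrix Fin.succ Fin.succ = G' i := by
      intro i
      ext1 a b
      simp only [Matrix.submatrix_apply, Mt, Matrix.of_apply, p, Fin.cases_succ]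
      exact (lf_coeff _ (hG' i a b)).symm
    have hle : HS 4 m ≤ colon E m μ ⊔ Submodule.span ℂ (Set.range fun a => F1 a p) := by
      rw [← hF1 p, sup_comm]
      simp only [hp]
      exact hG's
    have hle' : colon E m μ ⊔ Submodule.span ℂ (Set.range fun a => F1 a p) ≤ HS 4 m := by
      refine sup_le hcol ?_
      rw [← hF1 p]
      exact iSup_le fun i => TT_le _ fun a b => Mt_lin p i _ _
    have := Submodule.finiteDimensional_of_le hle'
    exact Submodule.finrank_mono hle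
  -- the second open set
  let F2 : Fin s × (Fin 3 × Fin (m + 1) ⊕ Fin 3 × Fin (m + 1)) → P → MvPolynomial (Fin 3) ℂ :=
    fun a p => Sum.elim (fun x => X x.1 * ((Mt p a.1).map (pr μ)).adjugate x.2 0)
      (fun x => X x.1 * ((Mt p a.1).map (pr μ)).adjugate 0 x.2) a.2
  have hF2 : ∀ p : P, (⨆ i, tauM ((Mt p i).map (pr μ))) =
      Submodule.span ℂ (Set.range fun a => F2 a p) := by
    intro p
    rw [← iSup_span_prod (fun (i : Fin s) (x : Fin 3 × Fin (m + 1) ⊕ Fin 3 × Fin (m + 1)) =>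
      (Sum.elim (fun x => X x.1 * ((Mt p i).map (pr μ)).adjugate x.2 0)
        (fun x => X x.1 * ((Mt p i).map (pr μ)).adjugate 0 x.2) x : MvPolynomial (Fin 3) ℂ))]
    refine iSup_congr fun i => ?_
    rw [tauM, ← Submodule.span_union, Set.Sum.elim_range]
  have hprlin : ∀ (p : P) (i : Fin s), IsLin ((Mt p i).map (pr μ)) := fun p i a b =>
    (h4 μ 1).2.2.1 _ (Mt_lin p i a b)
  have hU2 := h2.rank P (MvPolynomial (Fin 3) ℂ) E'
    (Fin s × (Fin 3 × Fin (m + 1) ⊕ Fin 3 × Fin (m + 1))) F2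
    (by
      rintro ⟨i, x | x⟩ p q
      · refine h1.mul _ _ _ (h1.const _ _) ?_
        refine h1.adj _ _ _ ?_ _ _
        intro x y
        exact h1.lin _ _ (pr μ).toLinearMap _ (Mt_poly h1 p q i x y)
      · refine h1.mul _ _ _ (h1.const _ _) ?_
        refine h1.adj _ _ _ ?_ _ _
        intro x y
        exact h1.lin _ _ (pr μ).toLinearMap _ (Mt_poly h1 p q i x y))
    (Module.finrank ℂ ↥(HS 3 (m + 1)))
  have hle2 : ∀ p : P, E' ⊔ Submodule.span ℂ (Set.range fun a => F2 a p) ≤ HS 3 (m + 1) := by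
    intro p
    refine sup_le hE' ?_
    rw [← hF2 p]
    exact iSup_le fun i => tauM_le _ (hprlin p i)
  have hle1 : ∀ p : P, colon E m μ ⊔ Submodule.span ℂ (Set.range fun a => F1 a p) ≤ HS 4 m := by
    intro p
    refine sup_le hcol ?_
    rw [← hF1 p]
    exact iSup_le fun i => TT_le _ fun a b => Mt_lin p i _ _
  have hU2ne : {p : P | Module.finrank ℂ ↥(HS 3 (m + 1)) ≤ Module.finrank ℂ
      ↥(E' ⊔ Submodule.span ℂ (Set.range fun a => F2 a p))}.Nonempty := by
    let p : P := fun i a b => ![0, coeff (Finsupp.single 0 1) (N i a b),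
      coeff (Finsupp.single 1 1) (N i a b), coeff (Finsupp.single 2 1) (N i a b)]
    refine ⟨p, ?_⟩
    have hp : ∀ i, (Mt p i).map (pr μ) = N i := by
      intro i
      ext1 a b
      simp only [Matrix.map_apply, Mt, Matrix.of_apply]
      rw [(h4 μ 1).2.2.2]
      conv_rhs => rw [lf_coeff _ (hN i a b)]
      congr 1
      funext j
      fin_cases j <;> simp [p]
    have hle : HS 3 (m + 1) ≤ E' ⊔ Submodule.span ℂ (Set.range fun a => F2 a p) := by
      rw [← hF2 p, sup_comm]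
      simp only [hp]
      exact hNs
    have := Submodule.finiteDimensional_of_le (hle2 p)
    exact Submodule.finrank_mono hle
  -- a common point
  obtain ⟨p, hp1, hp2⟩ := h2.inter_ne P _ _ hU1 hU2 hU1ne hU2ne
  refine ⟨fun i => Mt p i, fun i => Mt_lin p i, ?_, ?_⟩
  · have h := Submodule.eq_of_le_of_finrank_le (hle1 p) hp1
    show HS 4 m ≤ (⨆ i, TT ((Mt p i).submatrix Fin.succ Fin.succ)) ⊔ colon E m μ
    rw [hF1 p, sup_comm, h]
  · have h := Submodule.eq_of_le_of_finrank_le (hle2 p) hp2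
    show HS 3 (m + 1) ≤ (⨆ i, tauM ((Mt p i).map (pr μ))) ⊔ E'
    rw [hF2 p, sup_comm, h]

end Pool.Agent.Helper20.DS
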